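import Pool.Agent.L5helper18.DD.Circ

/-!
# Hypergraph dualization by structured circuits is not output-polynomial, for any vertex tree

We construct hypergraphs `H` such that, with `N` the number of edges plus the number of minimal
transversals, the communication matrix of the function which says whether a vertex set meets all
edges of `H` has rank at least `N ^ (log₂ N / 960)` over every field, for EVERY partition of the
vertices into two parts which contain at least a third of the vertices each. Hence every
representation of this function by a deterministic structured decomposable circuit (structured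
d-DNNF; this class contains the sentential decision diagrams SDD and the OBDD), for every tree of the
vertices, and every representation by sums of products along such a tree over any field (tree tensor
networks) has size at least `N ^ (log₂ N / 960)`. This is optimal up to the constant: a monotone
function with `N` prime clauses and terms has a decision tree with `N ^ O(log N)` leaves, and so all
these ranks are at most `N ^ O(log N)`.

* `cm f A`: the relation `f (S ∪ S')` between the sets `S ⊆ A` and `S' ⊆ Aᶜ`; `rk K m`: the rank over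
  the field `K` of the 0-1-matrix of the relation `m`.
* `VTree V`: binary trees with leaves labelled by vertices; `vars`: the set of the labels; `Ok`: no
  label occurs twice.
* `Structured K s τ W`: to every subtree of `τ` belongs a space of `K`-valued functions of dimension
  at most `s`, the space of a leaf `v` consists of functions of the vertex `v` only, the space of a
  node is contained in the span of the products `g₁ g₂`, where `g₁` (`g₂`) is a constant plus a
  function of the space of the left (right) child, and the space of the root is `W`.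
* `DSNNF C τ g`: `g` is computed by a deterministic decomposable circuit which is structured by `τ`
  and whose gates compute functions in `C`: constants, literals at the leaves, conjunctions of a
  gate of the left with a gate of the right subtree, disjunctions of two gates which exclude each
  other. The number of gates is at least the number of elements of `C`.

Construction: `G` is the balanced alternating tree of height `2 j` with `4 ^ j` leaves; for a shift `r`
of the group `(ℤ / 2 ^ j) ^ 2` the leaves of the function `f r` are the disjunctions of the vertices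
`(x, 0)` and `(x + r, 1)`; two unary multiplexers with `2 ^ j` selectors each choose `r`. A balanced
partition of the vertices splits at least two fifths of the pairs for some `r`, and the rank of a
tree with many split leaves is exponential in the number of the leaves.
-/

set_option autoImplicit false

namespace Pool.Agent.Results.MP_bca398_lc.BalancedRank

open Pool.Agent.L5helper18.DD

theorem num (j N : ℕ) (h : N ≤ 2 ^ (3 * 2 ^ j)) :
    (N : ℝ) ^ (Real.logb 2 N / 960) ≤ (2 : ℝ) ^ ((3 * 4 ^ j : ℝ) / 320) := by
  have h4 : (0 : ℝ) ≤ (3 * 4 ^ j : ℝ) / 320 := by positivity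
  rcases Nat.eq_zero_or_pos N with h0 | h0
  · subst h0
    simp only [Nat.cast_zero, Real.logb_zero, zero_div, Real.rpow_zero]
    exact Real.one_le_rpow (by norm_num) h4
  · have hN0 : (0 : ℝ) < N := by exact_mod_cast h0
    have hN1 : (1 : ℝ) ≤ N := by exact_mod_cast h0
    set l := Real.logb 2 N with hl
    have hl0 : 0 ≤ l := Real.logb_nonneg (by norm_num) hN1
    have hl1 : l ≤ 3 * 2 ^ j := by
      have h1 : (N : ℝ) ≤ (2 : ℝ) ^ (3 * 2 ^ j : ℕ) := by exact_mod_cast h
      have h2 := Real.logb_le_logb_of_le (b := 2) (by norm_num) hN0 h1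
      rw [Real.logb_pow, Real.logb_self_eq_one (by norm_num)] at h2
      push_cast at h2
      linarith
    have hN : (N : ℝ) = (2 : ℝ) ^ l := (Real.rpow_logb (by norm_num) (by norm_num) hN0).symm
    rw [hN, ← Real.rpow_mul (by norm_num)]
    refine Real.rpow_le_rpow_of_exponent_le (by norm_num) ?_
    have h5 : l * l ≤ (3 * 2 ^ j) * (3 * 2 ^ j) := mul_le_mul hl1 hl1 hl0 (by positivity)
    have h6 : (3 * 2 ^ j : ℝ) * (3 * 2 ^ j) = 9 * 4 ^ j := by
      have : (4 : ℝ) ^ j = 2 ^ j * 2 ^ j := by rw [← mul_pow]; norm_num
      rw [this]
      ring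
    rw [h6] at h5
    have h7 : l * (l / 960) = l * l / 960 := by ring
    rw [h7]
    linarith

/-- **Superpolynomial lower bounds, for every balanced partition and every tree of the vertices, for
hypergraphs with few edges and few minimal transversals.** -/
theorem result : ∀ j : ℕ, 4 ≤ j → ∃ (V : Type) (_ : Fintype V) (_ : DecidableEq V)
    (H : Finset (Finset V)) (N : ℕ) (B : ℝ), N = H.card + (Tr H).ncard ∧
    Fintype.card V = 2 * 4 ^ j + 2 * 2 ^ j ∧ N ≤ 2 ^ (3 * 2 ^ j) ∧
    B = (2 : ℝ) ^ ((3 * 4 ^ j : ℝ) / 320) ∧ (N : ℝ) ^ (Real.logb 2 N / 960) ≤ B ∧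
    (∀ (K : Type) (_ : Field K) (A : Finset V), Fintype.card V ≤ 3 * A.card →
      3 * A.card ≤ 2 * Fintype.card V → B ≤ rk K (cm (fun S => IsTransversal H S) A)) ∧
    (∀ (K : Type) (_ : Field K) (s : ℕ) (τ : VTree V) (W : Submodule K (Finset V → K)),
      τ.Ok → τ.vars = Finset.univ → Structured K s τ W →
      (∃ F ∈ W, ∀ S, (IsTransversal H S → F S = 1) ∧ (¬ IsTransversal H S → F S = 0)) → B ≤ s) ∧
    (∀ (C : Finset (Finset V → Prop)) (τ : VTree V), τ.Ok → τ.vars = Finset.univ →
      DSNNF (C : Set (Finset V → Prop)) τ (fun S => IsTransversal H S) → B ≤ C.card) := by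
  intro j hj
  classical
  have hcard : Fintype.card (Sh j) = Fintype.card (Lf j) := by rw [card_Sh, card_Lf]
  let e : Sh j ≃ Lf j := Fintype.equivOfCardEq hcard
  obtain ⟨H, h1, h2, h3⟩ := (FB_rep e).hyper
  have h3' : (fun S => IsTransversal H S) = FB e := by
    ext S
    exact (h3 S).symm
  have hfin : (Tr H).Finite := Set.toFinite _
  have hTr : (Tr H).ncard ≤ (2 ^ j) ^ 2 + 2 ^ j * ((2 ^ j) ^ 2 + 2 ^ j * Dn j) := by
    rw [← hfin.cast_ncard_eq] at h2
    exact_mod_cast h2
  have hN : H.card + (Tr H).ncard ≤ 2 ^ (3 * 2 ^ j) :=
    (add_le_add h1 hTr).trans (size_bound j hj)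
  have hB : ∀ k : ℕ, 3 * 4 ^ j ≤ 320 * k →
      (2 : ℝ) ^ ((3 * 4 ^ j : ℝ) / 320) ≤ ((2 ^ k : ℕ) : ℝ) := by
    intro k hk
    have h5 : (3 * 4 ^ j : ℝ) ≤ 320 * k := by exact_mod_cast hk
    have h6 : ((2 ^ k : ℕ) : ℝ) = (2 : ℝ) ^ (k : ℝ) := by
      rw [Real.rpow_natCast]
      push_cast
      rfl
    rw [h6]
    refine Real.rpow_le_rpow_of_exponent_le (by norm_num) ?_
    linarith
  have hV4 : 4 ≤ Fintype.card (Wx j) := by
    rw [card_Wx]
    have a1 := Nat.one_le_pow j 4 (by norm_num)
    have a2 := Nat.one_le_pow j 2 (by norm_num)
    omega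
  have hstr : ∀ (K : Type) (_ : Field K) (s : ℕ) (τ : VTree (Wx j))
      (W : Submodule K (Finset (Wx j) → K)), τ.Ok → τ.vars = Finset.univ → Structured K s τ W →
      (∃ F ∈ W, ∀ S, (IsTransversal H S → F S = 1) ∧ (¬ IsTransversal H S → F S = 0)) →
      (2 : ℝ) ^ ((3 * 4 ^ j : ℝ) / 320) ≤ s := by
    intro K _ s τ W hok huniv hst hF
    obtain ⟨F, hFW, hF⟩ := hF
    obtain ⟨A, hA1, hA2, hA3⟩ := descend (f := fun S => IsTransversal H S) hF hV4 hst hok ∅
      (Finset.disjoint_empty_right _) (by rw [Finset.union_empty, huniv]) (by
        refine Submodule.subset_span ⟨F, Submodule.mem_sup_left hFW, fun _ => 1, ?_, ?_⟩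
        · intro S
          rfl
        · ext S
          simp) (by rw [huniv, Finset.card_univ]; omega)
    obtain ⟨k, hk1, hk2⟩ := rank_bal e hj K A hA1 hA2
    rw [h3'] at hA3
    refine (hB k hk1).trans ?_
    have : 2 ^ k ≤ s := by omega
    exact_mod_cast this
  refine ⟨Wx j, inferInstance, inferInstance, H, _, _, rfl, card_Wx j, hN, rfl, num j _ hN, ?_,
    hstr, ?_⟩
  · intro K _ A hA1 hA2
    obtain ⟨k, hk1, hk2⟩ := rank_bal e hj K A hA1 hA2
    rw [h3']
    refine (hB k hk1).trans ?_
    have : 2 ^ k ≤ rk K (cm (FB e) A) := by omega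
    exact_mod_cast this
  · intro C τ hok huniv hD
    refine hstr ℚ inferInstance C.card τ _ hok huniv (structured_Wsp ℚ C τ)
      ⟨ind ℚ (fun S => IsTransversal H S), Submodule.subset_span ⟨_, hD, rfl⟩, fun S => ?_⟩
    exact ind_spec ℚ (fun S => IsTransversal H S) S

end Pool.Agent.Results.MP_bca398_lc.BalancedRank
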